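import Pool.Agent.H4.OG.Two
import Pool.Agent.H4.OG.Low

set_option autoImplicit false

/-!
# The vanishing conjecture is equivalent to the injectivity of induction for one subgroup of index two

Let `K_{-n}` be Bass's negative `K`-groups (and `K_0` for `n = 0`). There are a countable torsion-free
group `V` and a subgroup `L` of index two such that for every ring `R` and every `n ≥ 0` the induction
map `K_{-n}(R[L]) → K_{-n}(R[V])` is injective if and only if for all torsion-free groups `G` the map
`K_{-n}(R) → K_{-n}(R[G])` is bijective and `K_{-k}(R[G]) = 0` for all `k > n`.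

For a regular ring `R` and `n ≥ 1` one has `K_{-n}(R) = 0` (Bass), so the right hand side says
`K_{-k}(R[G]) = 0` for all `k ≥ n` and all torsion-free `G`. Thus the conjecture holds if and only if
the induction map `K_{-1}(R[L]) → K_{-1}(R[V])` is injective for the countable regular rings `R`.

Proof. Let `V = (G × G) ⋊ ℤ`, where `ℤ` acts by interchanging the factors, and `L = (G × G) × 2ℤ`. For
`x` in `K_{-n}(R[G])` the images of `x` under the two embeddings of `G` in `L` agree in `K_{-n}(R[V])`,
since inner automorphisms act trivially. If they agree in `K_{-n}(R[L])` then the projection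
`L → G` to the first factor shows that `x` comes from `K_{-n}(R)`. For `G` one takes the countable
universal group of `OneGroupOneDegree`.
-/

namespace Pool.Agent.Results.MP_28303a_al.IndexTwoInduction

open Pool.Agent.H4.OG Pool.Agent.H4.Reg Pool.Agent.H84.W

/-- `K_{-n}(R[L]) → K_{-n}(R[V])` is injective. -/
def IndInj (R : Type) [Ring R] (n : ℕ) {V : Type} [Group V] (L : Subgroup V) : Prop :=
  Function.Injective (kmap R n L.subtype)

/-- `K_{-n}(R) → K_{-n}(R[G])` is bijective. -/
def Bij (R : Type) [Ring R] (n : ℕ) (G : Type) [Group G] : Prop :=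
  Function.Bijective (kmap R n (1 : Unit →* G))

theorem indInj_of_bij (R : Type) [Ring R] (n : ℕ)
    (h : ∀ (G : Type) [Group G], TF G → Bij R n G) {V : Type} [Group V] (hV : TF V)
    (L : Subgroup V) : IndInj R n L := by
  intro x y hxy
  have hL : TF L := fun g hg => Subtype.ext
    (hV g.1 (MonoidHom.isOfFinOrder L.subtype hg))
  obtain ⟨a, rfl⟩ := (h L hL).2 x
  obtain ⟨b, rfl⟩ := (h L hL).2 y
  rw [← kmap_comp, ← kmap_comp] at hxy
  have h1 : L.subtype.comp (1 : Unit →* L) = 1 := rfl
  rw [h1] at hxy
  rw [(h V hV).1 hxy]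

/-- There are a countable torsion-free group `V` and a subgroup `L` of index two such that (1) for
every ring `R` and every `n ≥ 0` the following are equivalent: (a) the induction map
`K_{-n}(R[L]) → K_{-n}(R[V])` is injective; (b) for all torsion-free groups `G` the map
`K_{-n}(R) → K_{-n}(R[G])` is bijective and `K_{-k}(R[G]) = 0` for all `k > n`; (c) the induction maps
`K_{-n}(R[L']) → K_{-n}(R[V'])` are injective for all subgroups `L'` of torsion-free groups `V'`;
(2) the maps `K_{-n}(R) → K_{-n}(R[G])` are bijective for all regular rings `R`, all torsion-free groups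
`G` and all `n ≥ 1` if and only if the induction map `K_{-1}(R[L]) → K_{-1}(R[V])` is injective for all
countable regular rings `R`. -/
theorem result : ∃ (V : Type) (_ : Group V) (L : Subgroup V), Countable V ∧ TF V ∧ L.index = 2 ∧
    (∀ (R : Type) [Ring R] (n : ℕ),
      (IndInj R n L ↔ ∀ (G : Type) [Group G], TF G → Bij R n G ∧ ∀ k, n < k → Zero R k G) ∧
      (IndInj R n L ↔ ∀ (V' : Type) [Group V'] (L' : Subgroup V'), TF V' → IndInj R n L')) ∧
    ((∀ (R : Type) [Ring R], Regular R → ∀ (G : Type) [Group G], TF G →
        ∀ n : ℕ, 1 ≤ n → Bij R n G) ↔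
      ∀ (R : Type) [Ring R], Countable R → Regular R → IndInj R 1 L) := by
  have hU : TF UU := tfcl_tf RU
  have hV := VV_tf UU hU
  have key : ∀ (R : Type) [Ring R] (n : ℕ), Const R n UU →
      ∀ (G : Type) [Group G], TF G → Bij R n G ∧ ∀ k, n < k → Zero R k G := by
    intro R _ n h G _ hG
    refine ⟨⟨kmap_one_injective R n G, const_all R n h G hG⟩, fun k hk => ?_⟩
    have h2 : Zero R (n + 1) UU := zero_next R n (fun G _ hG => const_all R n h G hG) UU hU
    exact zero_ge R (n + 1) h2 k hk G hG
  have key2 : ∀ (R : Type) [Ring R] (n : ℕ), IndInj R n (LL UU) → Const R n UU :=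
    fun R _ n h => const_of_inj R n UU h
  refine ⟨VV UU, inferInstance, LL UU, ?_, hV, LL_index UU, fun R _ n => ⟨⟨fun h =>
    key R n (key2 R n h), fun h => indInj_of_bij R n (fun G _ hG => (h G hG).1) hV _⟩,
    ⟨fun h V' _ L' hV' => indInj_of_bij R n (fun G _ hG => (key R n (key2 R n h) G hG).1) hV' L',
      fun h => h _ _ hV⟩⟩, ⟨fun h R _ _ hR => ?_, fun h R _ hR G _ hG n hn => ?_⟩⟩
  · exact (SemidirectProduct.equivProd (φ := phi UU)).injective.countable
  · exact indInj_of_bij R 1 (fun G _ hG => h R hR G hG 1 le_rfl) hV _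
  · have h1 : Const R 1 UU :=
      const_countable R 1 UU (fun S _ hS hS2 => key2 S 1 (h S hS hS2)) hR
    rcases Nat.eq_or_lt_of_le hn with rfl | hn
    · exact (key R 1 h1 G hG).1
    · have h2 := (key R 1 h1 G hG).2 n hn
      exact ⟨kmap_one_injective R n G, const_of_zero R n G h2⟩

end Pool.Agent.Results.MP_28303a_al.IndexTwoInduction
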