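import Pool.Agent.H4.OF.Bnd

set_option autoImplicit false

/-!
# Negative K-groups over fields: one algebraically closed field decides

Fix a characteristic `p` (zero or a prime number). We show that the vanishing of the negative `K`-groups
`K_{-n}(k[G])` for all algebraically closed fields `k` of characteristic `p` and all torsion-free groups
`G` is decided by one group `K_{-1}(K[U])`: here `U` is one countable torsion-free group (the same for all
`p`), and `K` is any algebraically closed field of characteristic `p` of infinite transcendence degree, for
example `K = ℂ`, or a countable one. The same group decides whether the negative `K`-groups of `k[G]` are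
torsion groups for all fields `k` of characteristic `p` and all torsion-free groups `G`. Both properties are
equivalent to uniform bounds for decompositions of idempotent matrices over `k[G][t, t⁻¹]`, and in
characteristic zero these bounds carry over to all fields of large characteristic.

The proof: a decomposition over an extension field of `k` descends to a finite extension `L` of `k`, and
the transfer from `L` to `k` kills at most `[L : k]`-torsion; finitely generated fields embed into `K`;
uniform bounds and exponents follow by ultraproducts.
-/

namespace Pool.Agent.Results.MP_28303a_al.OneField

open Pool.Agent.H4.UF Pool.Agent.H84.W Pool.Agent.H4.OG Pool.Agent.H4.OF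

/-- There is a countable torsion-free group `U` such that for every `p` (zero or a prime number) and every
algebraically closed field `K` of characteristic `p` which contains an infinite sequence `x` of
algebraically independent elements (over `ZMod p`, which is `ℤ` for `p = 0`):

(1) the following are equivalent: `K_{-1}(K[U]) = 0`; `K_{-n}(k[G]) = 0` for all algebraically closed
fields `k` of characteristic `p`, all torsion-free groups `G` and all `n ≥ 1`; there are uniform bounds
`F n s` for the decompositions of the idempotent `n × n` matrices with at most `s` terms in each entry, of
degrees between `-s` and `s`, over `k[G][t, t⁻¹]`, for all torsion-free groups `G` and all algebraically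
closed fields `k` of characteristic `p` or, if `p = 0`, of characteristic greater than `F n s`;

(2) the following are equivalent: `K_{-1}(K[U])` is a torsion group; `K_{-n}(k[G])` is a torsion group for
all fields `k` of characteristic `p`, all torsion-free groups `G` and all `n ≥ 1`; there are uniform bounds
`F n s` such that for every such matrix `e`, over every field `k` of characteristic `p` or, if `p = 0`,
of characteristic greater than `F n s`, the direct sum of `d` copies of `e` decomposes, with
`0 < d ≤ F n s` and with the bound `F n s`.

Every uncountable algebraically closed field of characteristic `p` contains such a sequence, and so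
does some countable algebraically closed field of characteristic `p`. -/
theorem result : ∃ (U : Type) (_ : Group U), Countable U ∧ TF U ∧ ∀ p : ℕ, (p = 0 ∨ p.Prime) →
    (∀ (K : Type) [Field K] [IsAlgClosed K] [CharP K p] [Algebra (ZMod p) K] (x : ℕ → K),
      AlgebraicIndependent (ZMod p) x →
      List.TFAE [
        Zero K 1 U,
        ∀ (k : Type) [Field k] [IsAlgClosed k] [CharP k p] (G : Type) [Group G], TF G →
          ∀ m : ℕ, Zero k (m + 1) G,
        ZBound p] ∧
      List.TFAE [
        Tors K 1 U,
        ∀ (k : Type) [Field k] [CharP k p] (G : Type) [Group G], TF G →
          ∀ m : ℕ, Tors k (m + 1) G,
        TBound p]) ∧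
    (∀ (K : Type) [Field K] [IsAlgClosed K] [CharP K p] [Uncountable K] [Algebra (ZMod p) K],
      ∃ x : ℕ → K, AlgebraicIndependent (ZMod p) x) ∧
    (∃ (K : Type) (_ : Field K) (_ : IsAlgClosed K) (_ : CharP K p) (_ : Algebra (ZMod p) K)
      (x : ℕ → K), Countable K ∧ AlgebraicIndependent (ZMod p) x) := by
  refine ⟨UU, inferInstance, inferInstance, tfcl_tf RU, fun p hp => ⟨?_, ?_, ?_⟩⟩
  · intro K _ _ _ _ x hx
    exact ⟨zero_tfae p K x hx, tors_tfae p K x hx⟩
  · intro K _ _ _ _ _
    exact exists_indep p K
  · rcases hp with rfl | hp
    · have : IsDomain (ZMod 0) := inferInstanceAs (IsDomain ℤ)
      exact exists_countable_field 0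
    · have : Fact p.Prime := ⟨hp⟩
      exact exists_countable_field p

end Pool.Agent.Results.MP_28303a_al.OneField
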