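import Pool.Agent.H4.OG.Main

set_option autoImplicit false

/-!
# One countable group and one degree decide the vanishing of the negative K-groups

`K_{-n}(R[G])` are Bass's negative `K`-groups (iterated cokernels, starting from the Grothendieck
group `K_0` of idempotent matrices). There is a countable torsion-free group `U` such that for every
ring `R` whatsoever the vanishing of the one group `K_{-n}(R[U])` implies the vanishing of
`K_{-k}(R[G])` for all `k ≥ n` and all torsion-free groups `G`. Moreover every regular ring is the
union of its countable regular subrings, in the strong sense that every countable subset lies in a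
countable regular subring. So the conjecture (all regular rings, all torsion-free groups, all
negative degrees) is equivalent to `K_{-1}(R[U]) = 0` for the countable regular rings `R`.

Proof. An idempotent matrix over `R[ℤⁿ × G]` lifts to an idempotent matrix over `R[ℤⁿ × P]` for a
finitely presented group `P` mapping to `G`. A torsion-free group need not be a directed colimit of
finitely presented torsion-free groups, but if `G` is torsion-free, the homomorphism `P → G` factors
through the largest torsion-free quotient of `P`. These quotients are countably many, and all of them
are retracts of one countable torsion-free group `U`. The group `K_{-n-1}(R[G])` is a quotient of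
`K_{-n}(R[ℤ × G])`. For the coefficients: let a countable subring `S` of a left Noetherian ring `R` be
closed under Skolem functions for (a) the solution of systems of linear equations, (b) generators of
the solutions of homogeneous systems, (c) generalized inverses of matrices. Then `S` is left
Noetherian, and the finite projective resolutions over `R` descend to `S`.
-/

namespace Pool.Agent.Results.MP_28303a_al.OneGroupOneDegree

open Pool.Agent.H4.OG Pool.Agent.H4.Reg Pool.Agent.H84.W

/-- The conjecture: `K_{-n}(R[G]) = 0` for all regular rings `R`, all torsion-free groups `G` and all
`n ≥ 1`. -/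
def Conj : Prop :=
  ∀ (R : Type) [Ring R], Regular R → ∀ (G : Type) [Group G], TF G → ∀ n : ℕ, 1 ≤ n → Zero R n G

/-- There is a countable torsion-free group `U` such that (1) the conjecture holds if and only if
`K_{-1}(R[U]) = 0` for all countable regular rings `R`; (2) for every ring `R` and every `n`:
`K_{-n}(R[U]) = 0` if and only if `K_{-k}(R[G]) = 0` for all torsion-free groups `G` and all
`k ≥ n`. -/
theorem result : ∃ (U : Type) (_ : Group U), Countable U ∧ TF U ∧
    (Conj ↔ ∀ (R : Type) [Ring R], Countable R → Regular R → Zero R 1 U) ∧
    (∀ (R : Type) [Ring R] (n : ℕ), Zero R n U ↔
      ∀ k : ℕ, n ≤ k → ∀ (G : Type) [Group G], TF G → Zero R k G) := by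
  have h1 : TF UU := tfcl_tf RU
  have h2 : ∀ (R : Type) [Ring R] (n : ℕ), Zero R n UU ↔
      ∀ k : ℕ, n ≤ k → ∀ (G : Type) [Group G], TF G → Zero R k G := fun R _ n =>
    ⟨fun h k hk G _ hG => zero_ge R n h k hk G hG, fun h => h n le_rfl UU h1⟩
  refine ⟨UU, inferInstance, inferInstance, h1, ⟨fun h R _ _ hR => h R hR UU h1 1 le_rfl,
    fun h R _ hR G _ hG n hn => ?_⟩, h2⟩
  exact (h2 R 1).1 (zero_countable R 1 UU (fun S _ hS hS2 => h S hS hS2) hR) n hn G hG

end Pool.Agent.Results.MP_28303a_al.OneGroupOneDegree
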