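import Pool.Agent.H4.UF.UnifZ

set_option autoImplicit false

/-!
# Negative K-groups over skew fields: uniform bounds and large characteristics

The group `K_{-1}(k[G])` vanishes if and only if every idempotent matrix `e` over `k[G][t, t⁻¹]`
decomposes: `e ⊕ 1_a` is isomorphic to `u ⊕ v` with idempotent matrices `u` over `k[G][t]` and `v` over
`k[G][t⁻¹]`. We show: the negative `K`-groups of `k[G]` vanish for all skew fields (or all fields) `k` of
characteristic zero and all torsion-free groups `G` if and only if there are uniform bounds `F n s` for
such decompositions of the idempotent `n × n` matrices over `k[G][t, t⁻¹]` whose entries have at most `s`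
terms, of degrees between `-s` and `s`; and then these bounds hold for all torsion-free groups `G` and all
skew fields (fields) whose characteristic is zero or greater than `F n s`. It suffices to know
`K_{-1}(k[U]) = 0` for one countable torsion-free group `U` and all countable `k` of characteristic zero.
The same holds in each positive characteristic, and without any restriction of the characteristic.
-/

namespace Pool.Agent.Results.MP_28303a_al.UniformDecomposition

open Pool.Agent.H4.UF Pool.Agent.H84.W Pool.Agent.H4.OG

/-- (1) For every ring `k` and every group `G`: `K_{-1}(k[G]) = 0` if and only if every idempotent matrix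
over `k[ℤ × G] = k[G][t, t⁻¹]` decomposes with some bound `N`. (2) There is a countable torsion-free
group `U` such that for the class of all skew fields (`c` false) and the class of all fields (`c` true)
the following are equivalent: `K_{-1}(k[U]) = 0` for all countable `k` of characteristic zero;
`K_{-n}(k[G]) = 0` for all `n ≥ 1`, all `k` of characteristic zero and all torsion-free groups `G`; there
are uniform bounds `F n s` for the decompositions over all torsion-free groups and all `k` of
characteristic zero or greater than `F n s`. The same holds for the skew fields with `p = 0`, for each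
number `p` (a prime number, or the number `0`, which gives all skew fields). -/
theorem result :
    (∀ (k G : Type) [Ring k] [Group G], Zero k 1 G ↔
      ∀ (n : ℕ) (e : Matrix (Fin n) (Fin n) (MonoidAlgebra k (Multiplicative ℤ × G))),
        e * e = e → ∃ N, DecN N e) ∧
    ∃ (U : Type) (_ : Group U), Countable U ∧ TF U ∧ ∀ c : Prop,
    List.TFAE [
      ∀ (k : Type) [Ring k], Countable k → Skew c k → CharZ k → Zero k 1 U,
      ∀ (k : Type) [Ring k], Skew c k → CharZ k → ∀ (G : Type) [Group G], TF G →
        ∀ m : ℕ, Zero k (m + 1) G,
      ∃ F : ℕ → ℕ → ℕ, ∀ (n s : ℕ) (k : Type) [Ring k], Skew c k → CharGt (F n s) k →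
        ∀ (G : Type) [Group G], TF G →
          ∀ e : Matrix (Fin n) (Fin n) (MonoidAlgebra k (Multiplicative ℤ × G)),
            e * e = e → Bd s e → DecN (F n s) e] ∧
    ∀ p : ℕ, List.TFAE [
      ∀ (k : Type) [Ring k], Countable k → Skew c k → (p : k) = 0 → Zero k 1 U,
      ∀ (k : Type) [Ring k], Skew c k → (p : k) = 0 → ∀ (G : Type) [Group G], TF G →
        ∀ m : ℕ, Zero k (m + 1) G,
      ∃ F : ℕ → ℕ → ℕ, ∀ (n s : ℕ) (k : Type) [Ring k], Skew c k → (p : k) = 0 →
        ∀ (G : Type) [Group G], TF G →
          ∀ e : Matrix (Fin n) (Fin n) (MonoidAlgebra k (Multiplicative ℤ × G)),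
            e * e = e → Bd s e → DecN (F n s) e] := by
  refine ⟨fun k G _ _ => ?_, UU, inferInstance, inferInstance, tfcl_tf RU,
    fun c => ⟨?_, fun p => ?_⟩⟩
  · rw [zero_one_iff]
    exact forall_congr' fun n => forall_congr' fun e => forall_congr' fun _ => (decN_iff e).symm
  · exact tfaeZ c (fun k _ => CharZ k) (fun N k _ => CharGt N k)
      (fun k _ h N m hm _ => h m hm) (fun U hU k _ h => charZ_ultra U hU k h)
      (fun k _ h S => charZ_sub k h S)
  · exact tfaeZ c (fun k _ => (p : k) = 0) (fun _ k _ => (p : k) = 0)
      (fun k _ h N => h) (fun U hU k _ h => char_ultra p U k h)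
      (fun k _ h S => char_sub p k h S)

end Pool.Agent.Results.MP_28303a_al.UniformDecomposition
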